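import Pool.Agent.H47SM.Power

/-!
# Power series with coefficients in a subring
-/

set_option autoImplicit false

universe u v w

namespace Pool.Agent.H47SM

open MvPowerSeries

/-- The power series whose coefficients are in `S`. -/
def coefSub {k : Type w} {A : Type u} [CommRing k] [CommRing A] [Algebra k A] (σ : Type v)
    (S : Subalgebra k A) : Subalgebra k (MvPowerSeries σ A) where
  carrier := {f | ∀ d : σ →₀ ℕ, coeff d f ∈ S}
  mul_mem' := by
    classical
    intro f g hf hg d
    rw [coeff_mul]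
    exact sum_mem fun p _ => mul_mem (hf _) (hg _)
  add_mem' := by
    intro f g hf hg d
    rw [map_add]
    exact add_mem (hf d) (hg d)
  algebraMap_mem' := by
    classical
    intro r d
    rw [MvPowerSeries.algebraMap_apply, coeff_C]
    split_ifs
    · exact S.algebraMap_mem r
    · exact zero_mem _

section

variable {k : Type w} {A : Type u} [CommRing k] [CommRing A] [Algebra k A] {σ : Type v}
  {S : Subalgebra k A}

theorem mem_coefSub {f : MvPowerSeries σ A} : f ∈ coefSub σ S ↔ ∀ d, coeff d f ∈ S := Iff.rfl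

/-- The inclusion of the series over `S`. -/
noncomputable def incl (σ : Type v) (S : Subalgebra k A) :
    MvPowerSeries σ S →+* MvPowerSeries σ A := MvPowerSeries.map (algebraMap S A)

theorem coeff_incl (f : MvPowerSeries σ S) (d : σ →₀ ℕ) : coeff d (incl σ S f) = ((coeff d f : S) : A) :=
  coeff_map _ _ _

theorem incl_mem (f : MvPowerSeries σ S) : incl σ S f ∈ coefSub σ S := by
  intro d
  rw [coeff_incl]
  exact (coeff d f).2

theorem incl_injective : Function.Injective (incl σ S) := by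
  intro f g h
  ext d
  have := congrArg (coeff d) h
  rw [coeff_incl, coeff_incl] at this
  exact this

/-- The series in `coefSub` are the series over `S`. -/
noncomputable def coefEquiv (σ : Type v) (S : Subalgebra k A) :
    MvPowerSeries σ S ≃+* coefSub σ S :=
  RingEquiv.ofBijective ((incl σ S).codRestrict (coefSub σ S) incl_mem) (by
    constructor
    · intro f g h
      exact incl_injective (congrArg Subtype.val h)
    · rintro ⟨g, hg⟩
      refine ⟨fun d => ⟨coeff d g, hg d⟩, Subtype.ext ?_⟩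
      ext d
      exact coeff_incl _ d)

theorem coefEquiv_coe (f : MvPowerSeries σ S) : (coefEquiv σ S f : MvPowerSeries σ A) = incl σ S f :=
  rfl

theorem incl_mem_ordIdeal {N : ℕ} (f : MvPowerSeries σ S) :
    incl σ S f ∈ ordIdeal σ A N ↔ f ∈ ordIdeal σ S N := by
  constructor
  · intro h d hd
    have := h d hd
    rw [coeff_incl] at this
    exact Subtype.ext this
  · intro h d hd
    rw [coeff_incl, h d hd]
    rfl

theorem exists_ordIdeal_add_mem [Finite σ] (t : A) (ht : ∀ a : A, ∃ ν₀ : ℕ, ∀ ν ≥ ν₀, t ^ ν * a ∈ S)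
    (N : ℕ) (f : MvPowerSeries σ A) :
    ∃ ν : ℕ, ∃ c ∈ ordIdeal σ A N, MvPowerSeries.C t ^ ν * f + c ∈ coefSub σ S := by
  classical
  choose ν₀ hν₀ using ht
  obtain ⟨s, hs⟩ : ∃ s : Finset (σ →₀ ℕ), ∀ d : σ →₀ ℕ, d.degree < N → d ∈ s :=
    ⟨(Finsupp.finite_of_degree_lt N).toFinset, fun d hd => by
      rw [Set.Finite.mem_toFinset]
      exact hd⟩
  have hsup : ∀ d ∈ s, ν₀ (coeff d f) ≤ s.sup fun d => ν₀ (coeff d f) := fun d hd =>
    Finset.le_sup (f := fun d => ν₀ (coeff d f)) hd
  have hco : ∀ (ν : ℕ) (d : σ →₀ ℕ), coeff d (MvPowerSeries.C t ^ ν * f) = t ^ ν * coeff d f := by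
    intro ν d
    rw [← map_pow, coeff_C_mul]
  obtain ⟨c, hc⟩ : ∃ c : MvPowerSeries σ A, ∀ d, coeff d c = if d.degree < N then 0 else
      -(t ^ (s.sup fun d => ν₀ (coeff d f)) * coeff d f) := ⟨fun d => if d.degree < N then 0 else
      -(t ^ (s.sup fun d => ν₀ (coeff d f)) * coeff d f), fun _ => rfl⟩
  refine ⟨s.sup fun d => ν₀ (coeff d f), c, ?_, ?_⟩
  · intro d hd
    rw [hc, if_pos hd]
  · intro d
    rw [map_add, hco, hc]
    by_cases hd : d.degree < N
    · rw [if_pos hd, add_zero]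
      exact hν₀ _ _ (hsup d (hs d hd))
    · rw [if_neg hd, add_neg_cancel]
      exact zero_mem _

end

/-! ### Charts -/

section Chart

variable {k : Type w} {B : Type u} {S : Type v} [CommRing k] [CommRing B] [Algebra k B] [CommRing S]
  {σ : Type} [Finite σ] {B' : Subalgebra k B} {I : Ideal B} (e : MvPowerSeries σ S ≃+* B')

include e

theorem chart_noeth (h : IsNoetherianRing S) : IsNoetherianRing B' :=
  isNoetherianRing_of_ringEquiv _ e

theorem chart_comap (H : ∀ (N : ℕ) (f : MvPowerSeries σ S), (e f : B) ∈ I ^ N ↔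
    f ∈ ordIdeal σ S N) : I.comap (algebraMap B' B) = (varIdeal σ S).map e := by
  ext b
  obtain ⟨f, rfl⟩ := e.surjective b
  rw [Ideal.mem_comap, Ideal.mem_map_of_equiv]
  have h1 := H 1 f
  rw [pow_one, ← varIdeal_pow, pow_one] at h1
  constructor
  · intro h
    exact ⟨f, h1.1 h, rfl⟩
  · rintro ⟨g, hg, hgf⟩
    rw [e.injective hgf] at hg
    exact h1.2 hg

theorem chart_complete (H : ∀ (N : ℕ) (f : MvPowerSeries σ S), (e f : B) ∈ I ^ N ↔
    f ∈ ordIdeal σ S N) : IsAdicComplete (I.comap (algebraMap B' B)) B' := by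
  rw [chart_comap e H, IsAdicComplete.congr_ringEquiv]
  infer_instance

theorem chart_exact (H : ∀ (N : ℕ) (f : MvPowerSeries σ S), (e f : B) ∈ I ^ N ↔
    f ∈ ordIdeal σ S N) (N : ℕ) (b : B) (hb : b ∈ B') (hbI : b ∈ I ^ N) :
    ∃ c ∈ (I.comap (algebraMap B' B)) ^ N, (c : B) = b := by
  refine ⟨⟨b, hb⟩, ?_, rfl⟩
  obtain ⟨f, hf⟩ := e.surjective ⟨b, hb⟩
  rw [chart_comap e H, ← Ideal.map_pow, varIdeal_pow, Ideal.mem_map_of_equiv]
  refine ⟨f, (H N f).1 ?_, hf⟩
  rw [hf]
  exact hbI

end Chart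

end Pool.Agent.H47SM
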