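import Pool.Agent.DWC.Defs

/-!
# The rings of functions on the two affine pieces of `ℙ¹`
-/

set_option autoImplicit false
open LaurentPolynomial
universe u
namespace Pool.Agent.DWC
variable {k : Type u} [Field k]

theorem coeff_toLaurent_trunc (f : k[T;T⁻¹]) (a : ℤ) :
    (Polynomial.toLaurent (trunc f)).coeff a = if 0 ≤ a then f.coeff a else 0 := by
  induction f using LaurentPolynomial.induction_on' with
  | add p q hp hq =>
    rw [map_add, map_add]
    simp only [AddMonoidAlgebra.coeff_add, Finsupp.add_apply] at *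
    rw [hp, hq]
    split_ifs
    · rfl
    · rw [add_zero]
  | C_mul_T n r =>
    rw [trunc_C_mul_T]
    split_ifs with h1 h2 h2
    · rw [← Polynomial.C_mul_X_pow_eq_monomial, Polynomial.toLaurent_C_mul_X_pow,
        Int.toNat_of_nonneg h1]
    · rw [← Polynomial.C_mul_X_pow_eq_monomial, Polynomial.toLaurent_C_mul_X_pow,
        Int.toNat_of_nonneg h1, ← single_eq_C_mul_T]
      exact Finsupp.single_eq_of_ne (by omega)
    · rw [map_zero, ← single_eq_C_mul_T]
      exact (Finsupp.single_eq_of_ne (by omega)).symm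
    · simp

theorem mem_Reg0_iff {f : k[T;T⁻¹]} : f ∈ Reg0 k ↔ ∃ p : Polynomial k, Polynomial.toLaurent p = f := by
  constructor
  · intro hf
    refine ⟨trunc f, ?_⟩
    ext a
    rw [coeff_toLaurent_trunc]
    split_ifs with h
    · rfl
    · exact (hf a (not_le.1 h)).symm
  · rintro ⟨p, rfl⟩ i hi
    have := coeff_toLaurent_trunc (Polynomial.toLaurent p) i
    rw [Polynomial.trunc_toLaurent, if_neg (not_le.2 hi)] at this
    exact this

theorem mem_RegInf0_iff {f : k[T;T⁻¹]} : f ∈ RegInf k 0 ↔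
    ∃ p : Polynomial k, invert (Polynomial.toLaurent p) = f := by
  have h : f ∈ RegInf k 0 ↔ invert f ∈ Reg0 k := by
    constructor
    · intro hf i hi
      rw [invert_apply]
      exact hf _ (by omega)
    · intro hf i hi
      have := hf (-i) (by omega)
      rw [invert_apply, neg_neg] at this
      exact this
  rw [h, mem_Reg0_iff]
  constructor
  · rintro ⟨p, hp⟩
    exact ⟨p, by rw [hp]; exact involutive_invert f⟩
  · rintro ⟨p, hp⟩
    exact ⟨p, by rw [← hp]; exact (involutive_invert _).symm⟩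

/-- `k[T]` -/
def reg0 (k : Type u) [Field k] : Subalgebra k k[T;T⁻¹] where
  carrier := Reg0 k
  mul_mem' := by
    intro f g hf hg
    obtain ⟨p, rfl⟩ := mem_Reg0_iff.1 hf
    obtain ⟨q, rfl⟩ := mem_Reg0_iff.1 hg
    exact mem_Reg0_iff.2 ⟨p * q, map_mul _ _ _⟩
  add_mem' := by
    intro f g hf hg
    obtain ⟨p, rfl⟩ := mem_Reg0_iff.1 hf
    obtain ⟨q, rfl⟩ := mem_Reg0_iff.1 hg
    exact mem_Reg0_iff.2 ⟨p + q, map_add _ _ _⟩
  algebraMap_mem' := fun r => mem_Reg0_iff.2 ⟨Polynomial.C r, Polynomial.toLaurent_C r⟩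

/-- `k[T⁻¹]` -/
def regInf0 (k : Type u) [Field k] : Subalgebra k k[T;T⁻¹] where
  carrier := RegInf k 0
  mul_mem' := by
    intro f g hf hg
    obtain ⟨p, rfl⟩ := mem_RegInf0_iff.1 hf
    obtain ⟨q, rfl⟩ := mem_RegInf0_iff.1 hg
    exact mem_RegInf0_iff.2 ⟨p * q, by rw [map_mul, map_mul]⟩
  add_mem' := by
    intro f g hf hg
    obtain ⟨p, rfl⟩ := mem_RegInf0_iff.1 hf
    obtain ⟨q, rfl⟩ := mem_RegInf0_iff.1 hg
    exact mem_RegInf0_iff.2 ⟨p + q, by rw [map_add, map_add]⟩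
  algebraMap_mem' := fun r => mem_RegInf0_iff.2
    ⟨Polynomial.C r, by rw [Polynomial.toLaurent_C, invert_C]; rfl⟩

theorem noeth_reg0 : IsNoetherianRing (reg0 k) := by
  refine isNoetherianRing_of_surjective (Polynomial k) (reg0 k)
    ((Polynomial.toLaurent (R := k)).codRestrict (reg0 k) fun p => mem_Reg0_iff.2 ⟨p, rfl⟩) ?_
  rintro ⟨f, hf⟩
  obtain ⟨p, rfl⟩ := mem_Reg0_iff.1 hf
  exact ⟨p, rfl⟩

theorem noeth_regInf0 : IsNoetherianRing (regInf0 k) := by
  refine isNoetherianRing_of_surjective (Polynomial k) (regInf0 k)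
    (((invert (R := k) : k[T;T⁻¹] →+* k[T;T⁻¹]).comp (Polynomial.toLaurent (R := k))).codRestrict
      (regInf0 k) fun p => mem_RegInf0_iff.2 ⟨p, rfl⟩) ?_
  rintro ⟨f, hf⟩
  obtain ⟨p, rfl⟩ := mem_RegInf0_iff.1 hf
  exact ⟨p, rfl⟩

theorem noeth_laurent : IsNoetherianRing k[T;T⁻¹] :=
  IsLocalization.isNoetherianRing (Submonoid.powers (Polynomial.X : Polynomial k)) _ inferInstance

end Pool.Agent.DWC
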