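import Mathlib

/-!
# Power series in several variables: the powers of the ideal of the variables
-/

set_option autoImplicit false

universe u v

namespace Pool.Agent.H47SM

open MvPowerSeries

variable {σ : Type v} {R : Type u} [CommRing R]

/-- The ideal generated by the variables. -/
noncomputable def varIdeal (σ : Type v) (R : Type u) [CommRing R] : Ideal (MvPowerSeries σ R) :=
  Ideal.span (Set.range (MvPowerSeries.X : σ → MvPowerSeries σ R))

/-- The series without terms of degree less than `N`. -/
noncomputable def ordIdeal (σ : Type v) (R : Type u) [CommRing R] (N : ℕ) : Ideal (MvPowerSeries σ R) where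
  carrier := {f | ∀ d : σ →₀ ℕ, d.degree < N → coeff d f = 0}
  add_mem' := by
    intro f g hf hg d hd
    simp only [Set.mem_ofPred_eq] at hf hg
    rw [map_add, hf d hd, hg d hd, add_zero]
  zero_mem' := by
    intro d _
    exact map_zero _
  smul_mem' := by
    classical
    intro c f hf d hd
    simp only [Set.mem_ofPred_eq] at hf
    rw [smul_eq_mul, coeff_mul]
    refine Finset.sum_eq_zero fun p hp => ?_
    rw [Finset.HasAntidiagonal.mem_antidiagonal] at hp
    rw [hf p.2 ?_, mul_zero]
    have : p.1.degree + p.2.degree = d.degree := by rw [← map_add, hp]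
    omega

theorem mem_ordIdeal {N : ℕ} {f : MvPowerSeries σ R} :
    f ∈ ordIdeal σ R N ↔ ∀ d : σ →₀ ℕ, d.degree < N → coeff d f = 0 := Iff.rfl

theorem X_mul_mem_ordIdeal {N : ℕ} {f : MvPowerSeries σ R} (hf : f ∈ ordIdeal σ R N) (i : σ) :
    X i * f ∈ ordIdeal σ R (N + 1) := by
  classical
  intro d hd
  rw [X, coeff_monomial_mul]
  split_ifs with h
  · rw [one_mul]
    apply hf
    have : (Finsupp.single i 1).degree + (d - Finsupp.single i 1).degree = d.degree := by
      rw [← map_add, add_tsub_cancel_of_le h]
    rw [Finsupp.degree_single] at this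
    omega
  · rfl

theorem varIdeal_pow_le (N : ℕ) : varIdeal σ R ^ N ≤ ordIdeal σ R N := by
  induction N with
  | zero =>
    intro f _ d hd
    omega
  | succ N ih =>
    rw [pow_succ']
    refine Ideal.mul_le.2 fun r hr s hs => ?_
    refine Submodule.span_induction (p := fun r _ => r * s ∈ ordIdeal σ R (N + 1)) ?_ ?_ ?_ ?_ hr
    · rintro _ ⟨i, rfl⟩
      exact X_mul_mem_ordIdeal (ih hs) i
    · rw [zero_mul]
      exact zero_mem _
    · intro x y _ _ hx hy
      rw [add_mul]
      exact add_mem hx hy
    · intro a x _ hx
      rw [smul_eq_mul, mul_assoc]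
      exact Ideal.mul_mem_left _ _ hx

open Classical in
/-- An index in the support of `d`. -/
noncomputable def idx [Nonempty σ] (d : σ →₀ ℕ) : σ :=
  if h : ∃ i, d i ≠ 0 then h.choose else Classical.arbitrary σ

theorem idx_spec [Nonempty σ] {d : σ →₀ ℕ} (h : d ≠ 0) : d (idx d) ≠ 0 := by
  have h1 : ∃ i, d i ≠ 0 := by
    by_contra h2
    push Not at h2
    exact h (Finsupp.ext h2)
  unfold idx
  rw [dif_pos h1]
  exact h1.choose_spec

open Classical in
/-- The part of `f` with terms of index `i`, divided by `X i`. -/
noncomputable def part [Nonempty σ] (f : MvPowerSeries σ R) (i : σ) : MvPowerSeries σ R :=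
  fun e => if idx (e + Finsupp.single i 1) = i then coeff (e + Finsupp.single i 1) f else 0

theorem coeff_part [Nonempty σ] (f : MvPowerSeries σ R) (i : σ) (e : σ →₀ ℕ) :
    coeff e (part f i) = open Classical in
      if idx (e + Finsupp.single i 1) = i then coeff (e + Finsupp.single i 1) f else 0 := rfl

theorem part_mem [Nonempty σ] {N : ℕ} {f : MvPowerSeries σ R} (hf : f ∈ ordIdeal σ R (N + 1))
    (i : σ) : part f i ∈ ordIdeal σ R N := by
  classical
  intro e he
  rw [coeff_part]
  split_ifs
  · apply hf
    rw [map_add, Finsupp.degree_single]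
    omega
  · rfl

theorem sum_X_mul_part [Fintype σ] [Nonempty σ] {N : ℕ} {f : MvPowerSeries σ R}
    (hf : f ∈ ordIdeal σ R (N + 1)) : ∑ i, X i * part f i = f := by
  classical
  ext d
  rw [map_sum]
  by_cases hd : d = 0
  · subst hd
    rw [hf 0 (by simp)]
    refine Finset.sum_eq_zero fun i _ => ?_
    rw [X, coeff_monomial_mul, if_neg]
    intro h
    have := h i
    simp at this
  · rw [Finset.sum_eq_single (idx d)]
    · have h1 : Finsupp.single (idx d) 1 ≤ d := by
        rw [Finsupp.single_le_iff]
        exact Nat.one_le_iff_ne_zero.2 (idx_spec hd)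
      have h2 : d - Finsupp.single (idx d) 1 + Finsupp.single (idx d) 1 = d :=
        tsub_add_cancel_of_le h1
      rw [X, coeff_monomial_mul, if_pos h1, one_mul, coeff_part, h2, if_pos rfl]
    · intro j _ hj
      rw [X, coeff_monomial_mul]
      split_ifs with h
      · have h2 : d - Finsupp.single j 1 + Finsupp.single j 1 = d := tsub_add_cancel_of_le h
        rw [one_mul, coeff_part, h2, if_neg (Ne.symm hj)]
      · rfl
    · intro h
      exact absurd (Finset.mem_univ _) h

theorem varIdeal_pow [Finite σ] (N : ℕ) : varIdeal σ R ^ N = ordIdeal σ R N := by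
  classical
  have := Fintype.ofFinite σ
  refine le_antisymm (varIdeal_pow_le N) ?_
  induction N with
  | zero =>
    rw [pow_zero, Ideal.one_eq_top]
    exact le_top
  | succ N ih =>
    intro f hf
    rcases isEmpty_or_nonempty σ with hσ | hσ
    · have h0 : f = 0 := by
        ext d
        have hd : d = 0 := Finsupp.ext fun i => isEmptyElim i
        subst hd
        rw [hf 0 (by simp), map_zero]
      rw [h0]
      exact zero_mem _
    · rw [← sum_X_mul_part hf, pow_succ']
      refine sum_mem fun i _ => Ideal.mul_mem_mul (Ideal.subset_span ⟨i, rfl⟩) (ih (part_mem hf i))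

theorem varIdeal_eq [Finite σ] : varIdeal σ R = RingHom.ker (constantCoeff (σ := σ) (R := R)) := by
  rw [← pow_one (varIdeal σ R), varIdeal_pow]
  ext f
  rw [mem_ordIdeal, RingHom.mem_ker]
  constructor
  · intro h
    exact h 0 (by simp)
  · intro h d hd
    have : d = 0 := by
      rw [← Finsupp.degree_eq_zero_iff]
      omega
    rw [this]
    exact h

instance [Finite σ] : IsAdicComplete (varIdeal σ R) (MvPowerSeries σ R) := by
  unfold varIdeal
  infer_instance

end Pool.Agent.H47SM
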