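import Pool.Agent.DWX.Contract
import Pool.Agent.H47SM.Coef
import Pool.Agent.H47SM.Laurent

/-!
# Formal neighbourhoods of `ℙ¹` in smooth varieties

The formal neighbourhood `X` of `C ≅ ℙ¹` in a smooth variety of dimension `n + 1`.  Over the affine
line `C ∖ {∞}` it is `𝔸¹ × Spf k[[y₁, …, yₙ]]`: the affine line is affine and smooth and its vector
bundles are trivial.  The same holds over `C ∖ {0}`.  So `X` is given by an automorphism `φ` of the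
ring `k[T, T⁻¹][[y₁, …, yₙ]]` which induces the identity on `C`, by which the two pieces are glued.
-/

set_option autoImplicit false

open LaurentPolynomial

universe u

namespace Pool.Agent.DWC

/-- `k[T, T⁻¹][[y₁, …, yₙ]]` -/
abbrev Ser (k : Type u) [Field k] (n : ℕ) : Type u := MvPowerSeries (Fin n) k[T;T⁻¹]

/-- The constant coefficient: the restriction to `C`, which is `y₁ = ⋯ = yₙ = 0`. -/
noncomputable def Ser.res (k : Type u) [Field k] (n : ℕ) : Ser k n →ₐ[k] k[T;T⁻¹] where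
  toRingHom := MvPowerSeries.constantCoeff
  commutes' := by
    intro r
    change MvPowerSeries.constantCoeff _ = _
    rw [MvPowerSeries.algebraMap_apply]
    exact MvPowerSeries.constantCoeff_C _

/-- The units `T ^ d` of `k[T, T⁻¹][[y₁, …, yₙ]]`. -/
noncomputable def Ser.T (k : Type u) [Field k] (n : ℕ) (d : ℤ) : (Ser k n)ˣ where
  val := MvPowerSeries.C (LaurentPolynomial.T d)
  inv := MvPowerSeries.C (LaurentPolynomial.T (-d))
  val_inv := by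
    rw [← map_mul, ← LaurentPolynomial.T_add, add_neg_cancel, LaurentPolynomial.T_zero, map_one]
  inv_val := by
    rw [← map_mul, ← LaurentPolynomial.T_add, neg_add_cancel, LaurentPolynomial.T_zero, map_one]

/-- The gluing data: an automorphism of `k[T, T⁻¹][[y₁, …, yₙ]]` which is the identity on `C`. -/
structure Gluing (k : Type u) [Field k] (n : ℕ) where
  φ : Ser k n ≃ₐ[k] Ser k n
  res_φ : ∀ f : Ser k n, Ser.res k n (φ f) = Ser.res k n f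

variable {k : Type u} [Field k]

theorem Ser.res_T (n : ℕ) (d : ℤ) : Ser.res k n (Ser.T k n d) = LaurentPolynomial.T d :=
  MvPowerSeries.constantCoeff_C _

theorem C_mem_coefSub {n : ℕ} {S : Subalgebra k k[T;T⁻¹]} {f : k[T;T⁻¹]} (hf : f ∈ S) :
    MvPowerSeries.C f ∈ H47SM.coefSub (Fin n) S := by
  classical
  intro d
  rw [MvPowerSeries.coeff_C]
  split_ifs
  · exact hf
  · exact zero_mem _

theorem T_mem_reg0 : (LaurentPolynomial.T 1 : k[T;T⁻¹]) ∈ reg0 k :=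
  mem_Reg0_iff.2 ⟨Polynomial.X, Polynomial.toLaurent_X⟩

theorem T_mem_regInf0 : (LaurentPolynomial.T (-1) : k[T;T⁻¹]) ∈ regInf0 k :=
  mem_RegInf0_iff.2 ⟨Polynomial.X, by rw [Polynomial.toLaurent_X, invert_T]⟩

/-- `k[T][[y₁, …, yₙ]]`, as a subring of `k[T, T⁻¹][[y₁, …, yₙ]]`. -/
noncomputable def Ser.sub₀ (k : Type u) [Field k] (n : ℕ) : Subalgebra k (Ser k n) :=
  H47SM.coefSub (Fin n) (reg0 k)

/-- `k[T⁻¹][[y₁, …, yₙ]]`, as a subring of `k[T, T⁻¹][[y₁, …, yₙ]]`. -/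
noncomputable def Ser.subInf (k : Type u) [Field k] (n : ℕ) : Subalgebra k (Ser k n) :=
  H47SM.coefSub (Fin n) (regInf0 k)

/-- The image of `k[T⁻¹][[y₁, …, yₙ]]` under `φ`. -/
noncomputable def Gluing.sub₁ {n : ℕ} (G : Gluing k n) : Subalgebra k (Ser k n) :=
  (Ser.subInf k n).map (G.φ : Ser k n →ₐ[k] Ser k n)

/-- `φ(T⁻¹)` -/
noncomputable def Gluing.w {n : ℕ} (G : Gluing k n) : (Ser k n)ˣ :=
  Units.map (G.φ : Ser k n →* Ser k n) (Ser.T k n (-1))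

theorem Gluing.x_mem (n : ℕ) : (Ser.T k n 1 : Ser k n) ∈ Ser.sub₀ k n := C_mem_coefSub T_mem_reg0

theorem Gluing.w_mem {n : ℕ} (G : Gluing k n) : (G.w : Ser k n) ∈ G.sub₁ :=
  ⟨_, C_mem_coefSub T_mem_regInf0, rfl⟩

theorem Gluing.res_w {n : ℕ} (G : Gluing k n) : Ser.res k n G.w = LaurentPolynomial.T (-1) :=
  (G.res_φ _).trans (Ser.res_T n (-1))

theorem Ser.res₀ {n : ℕ} {b : Ser k n} (hb : b ∈ Ser.sub₀ k n) : Ser.res k n b ∈ Reg0 k := hb 0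

theorem Gluing.res₁ {n : ℕ} (G : Gluing k n) {b : Ser k n} (hb : b ∈ G.sub₁) :
    Ser.res k n b ∈ RegInf k 0 := by
  obtain ⟨b, hb, rfl⟩ := hb
  exact (congrArg (· ∈ RegInf k 0) (G.res_φ b)).mpr (hb 0)

/-- The formal neighbourhood of `ℙ¹` in a smooth variety of dimension `n + 1`, glued from
`Spf k[T][[y₁, …, yₙ]]` and `Spf k[T⁻¹][[y₁, …, yₙ]]` by `φ`. -/
noncomputable def Gluing.nbhd {n : ℕ} (G : Gluing k n) : Nbhd k where
  B := Ser k n
  B₀ := Ser.sub₀ k n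
  B₁ := G.sub₁
  res := Ser.res k n
  x := Ser.T k n 1
  x_mem := Gluing.x_mem n
  res_x := Ser.res_T n 1
  w := G.w
  w_mem := G.w_mem
  res_w := G.res_w
  res₀ := fun _ hb => Ser.res₀ hb
  res₁ := fun _ hb => G.res₁ hb

/-! ### It is a formal neighbourhood -/

theorem T_pow_mul_mem_reg0 (a : k[T;T⁻¹]) :
    ∃ ν₀ : ℕ, ∀ ν ≥ ν₀, (LaurentPolynomial.T 1 : k[T;T⁻¹]) ^ ν * a ∈ reg0 k := by
  obtain ⟨n, p, hp⟩ := exists_T_pow a
  refine ⟨n, fun ν hν => mem_Reg0_iff.2 ⟨Polynomial.X ^ (ν - n) * p, ?_⟩⟩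
  rw [map_mul, map_pow, Polynomial.toLaurent_X, hp, T_pow, T_pow, mul_comm a, ← mul_assoc, ← T_add]
  congr 2
  push_cast [Nat.cast_sub hν]
  ring

theorem T_pow_mul_mem_regInf0 (a : k[T;T⁻¹]) :
    ∃ ν₀ : ℕ, ∀ ν ≥ ν₀, (LaurentPolynomial.T (-1) : k[T;T⁻¹]) ^ ν * a ∈ regInf0 k := by
  obtain ⟨ν₀, h⟩ := T_pow_mul_mem_reg0 (invert a)
  refine ⟨ν₀, fun ν hν => ?_⟩
  obtain ⟨p, hp⟩ := mem_Reg0_iff.1 (h ν hν)
  refine mem_RegInf0_iff.2 ⟨p, ?_⟩
  rw [hp, map_mul, map_pow, invert_T]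
  congr 1
  exact involutive_invert a

theorem Gluing.I_eq {n : ℕ} (G : Gluing k n) :
    G.nbhd.I = H47SM.varIdeal (Fin n) k[T;T⁻¹] := by
  rw [H47SM.varIdeal_eq]
  rfl

theorem Gluing.I_pow_eq {n : ℕ} (G : Gluing k n) (N : ℕ) :
    G.nbhd.I ^ N = (H47SM.ordIdeal (Fin n) k[T;T⁻¹] N : Ideal (Ser k n)) := by
  rw [G.I_eq]
  exact H47SM.varIdeal_pow N

theorem Gluing.mem_I_pow {n : ℕ} (G : Gluing k n) (N : ℕ) (b : Ser k n) :
    (show G.nbhd.B from b) ∈ G.nbhd.I ^ N ↔ b ∈ H47SM.ordIdeal (Fin n) k[T;T⁻¹] N := by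
  rw [G.I_pow_eq]
  rfl

theorem Gluing.map_varIdeal {n : ℕ} (G : Gluing k n) :
    (H47SM.varIdeal (Fin n) k[T;T⁻¹]).map (G.φ : Ser k n ≃+* Ser k n) =
      H47SM.varIdeal (Fin n) k[T;T⁻¹] := by
  rw [H47SM.varIdeal_eq]
  ext b
  rw [Ideal.mem_map_of_equiv]
  constructor
  · rintro ⟨a, ha, rfl⟩
    rw [RingHom.mem_ker] at ha ⊢
    exact (G.res_φ a).trans ha
  · intro hb
    refine ⟨G.φ.symm b, ?_, G.φ.apply_symm_apply b⟩
    rw [RingHom.mem_ker] at hb ⊢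
    refine Eq.trans ?_ hb
    refine (G.res_φ _).symm.trans ?_
    rw [G.φ.apply_symm_apply]
    rfl

theorem Gluing.φ_mem_ordIdeal {n : ℕ} (G : Gluing k n) (N : ℕ) (b : Ser k n) :
    G.φ b ∈ H47SM.ordIdeal (Fin n) k[T;T⁻¹] N ↔ b ∈ H47SM.ordIdeal (Fin n) k[T;T⁻¹] N := by
  have h : (H47SM.ordIdeal (Fin n) k[T;T⁻¹] N).map (G.φ : Ser k n ≃+* Ser k n) =
      H47SM.ordIdeal (Fin n) k[T;T⁻¹] N := by
    rw [← H47SM.varIdeal_pow, Ideal.map_pow, G.map_varIdeal]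
  constructor
  · intro hb
    rw [← h, Ideal.mem_map_of_equiv] at hb
    obtain ⟨a, ha, hab⟩ := hb
    have hab' : a = b := G.φ.injective hab
    rw [← hab']
    exact ha
  · intro hb
    rw [← h, Ideal.mem_map_of_equiv]
    exact ⟨b, hb, rfl⟩

/-- The functions on `U₀`. -/
noncomputable def Gluing.e₀ {n : ℕ} (G : Gluing k n) :
    MvPowerSeries (Fin n) (reg0 k) ≃+* G.nbhd.B₀ :=
  H47SM.coefEquiv (Fin n) (reg0 k)

/-- The functions on `U₁`. -/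
noncomputable def Gluing.e₁ {n : ℕ} (G : Gluing k n) :
    MvPowerSeries (Fin n) (regInf0 k) ≃+* G.nbhd.B₁ :=
  (H47SM.coefEquiv (Fin n) (regInf0 k)).trans
    (G.φ.subalgebraMap (H47SM.coefSub (Fin n) (regInf0 k))).toRingEquiv

theorem Gluing.e₀_mem {n : ℕ} (G : Gluing k n) (N : ℕ) (f : MvPowerSeries (Fin n) (reg0 k)) :
    (G.e₀ f : G.nbhd.B) ∈ G.nbhd.I ^ N ↔ f ∈ H47SM.ordIdeal (Fin n) (reg0 k) N := by
  rw [← H47SM.incl_mem_ordIdeal]
  exact G.mem_I_pow N _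

theorem Gluing.e₁_mem {n : ℕ} (G : Gluing k n) (N : ℕ) (f : MvPowerSeries (Fin n) (regInf0 k)) :
    (G.e₁ f : G.nbhd.B) ∈ G.nbhd.I ^ N ↔ f ∈ H47SM.ordIdeal (Fin n) (regInf0 k) N := by
  rw [← H47SM.incl_mem_ordIdeal, ← G.φ_mem_ordIdeal]
  exact G.mem_I_pow N _

theorem Gluing.formal {n : ℕ} (G : Gluing k n) : G.nbhd.Formal where
  noeth₀ := H47SM.chart_noeth G.e₀ noeth_reg0
  noeth₁ := H47SM.chart_noeth G.e₁ noeth_regInf0
  noeth := by
    have := noeth_laurent (k := k)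
    exact (inferInstance : IsNoetherianRing (MvPowerSeries (Fin n) k[T;T⁻¹]))
  complete₀ := H47SM.chart_complete G.e₀ G.e₀_mem
  complete₁ := H47SM.chart_complete G.e₁ G.e₁_mem
  complete := by
    have h : IsAdicComplete (H47SM.varIdeal (Fin n) k[T;T⁻¹]) (Ser k n) := inferInstance
    rw [← G.I_eq] at h
    exact h
  loc₀ := by
    intro N b
    obtain ⟨ν, c, hc, h⟩ := H47SM.exists_ordIdeal_add_mem _ T_pow_mul_mem_reg0 N b
    exact ⟨ν, c, (G.mem_I_pow N c).2 hc, h⟩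
  loc₁ := by
    intro N b
    obtain ⟨ν, c, hc, h⟩ := H47SM.exists_ordIdeal_add_mem _ T_pow_mul_mem_regInf0 N (G.φ.symm b)
    refine ⟨ν, G.φ c, (G.mem_I_pow N _).2 ((G.φ_mem_ordIdeal N c).2 hc), ?_⟩
    refine ⟨_, h, ?_⟩
    change G.φ (_ + c) = _
    have hb : G.φ (G.φ.symm b) = b := G.φ.apply_symm_apply b
    rw [map_add, map_mul, map_pow, hb]
    rfl
  exact₀ := by
    intro N b hb hbI
    refine ⟨0, ?_⟩
    rw [pow_zero, one_mul]
    exact Nbhd.mem_pow₀.2 (H47SM.chart_exact G.e₀ G.e₀_mem N b hb hbI)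
  exact₁ := by
    intro N b hb hbI
    refine ⟨0, ?_⟩
    rw [pow_zero, one_mul]
    exact Nbhd.mem_pow₁.2 (H47SM.chart_exact G.e₁ G.e₁_mem N b hb hbI)

end Pool.Agent.DWC
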