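import Pool.Agent.DWX.Iff
import Pool.Agent.H47SM.Smooth

/-!
# Rational curves in smooth varieties

Every smooth formal neighbourhood of `ℙ¹`, given by its gluing data, satisfies the hypothesis
`IsFormal`; so the curve contracts to a point if and only if its noncommutative deformation algebra
is finite-dimensional.
-/

set_option autoImplicit false

universe u

namespace Pool.Agent.DWC

variable {k : Type u} [Field k]

theorem Gluing.isFormal {n : ℕ} (G : Gluing k n) : G.nbhd.IsFormal :=
  Nbhd.isFormal_iff.2 G.formal

theorem Gluing.contractsToPoint_iff_finDimDef {n : ℕ} (G : Gluing k n) :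
    G.nbhd.ContractsToPoint ↔ G.nbhd.FinDimDef :=
  Nbhd.contractsToPoint_iff_finDimDef G.isFormal

end Pool.Agent.DWC
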